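import Mathlib

set_option autoImplicit false

namespace Pool.Agent.H.MP_76c039_co

open Finset Pointwise

variable {G : Type} [Group G]

def Few {k : ℕ} (c : G → Fin k) (K : ℕ) : Prop :=
  ∀ g : G, ∀ T : Finset G, (∀ h ∈ T, c (g * h) = c (g * h⁻¹)) → T.card ≤ K

lemma core {ι : Type} [DecidableEq G] {k : ℕ} {c : G → Fin k} {K : ℕ} (hF : Few c K)
    (Λ : Finset ι) (g h : ι → G) (hc : ∀ l ∈ Λ, c (g l * h l) = c (g l * (h l)⁻¹))
    (Y : Finset G) (hY : ∀ l ∈ Λ, g l ∈ Y) (t : ℕ)
    (ht : ∀ a b : G, (Λ.filter (fun l => g l = a ∧ h l = b)).card ≤ t) :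
    Λ.card ≤ (t * K) * Y.card := by
  refine Finset.card_le_mul_card_image_of_maps_to hY _ ?_
  intro a _
  have h1 : ((Λ.filter (fun l => g l = a)).image h).card ≤ K := by
    apply hF a
    intro x hx
    obtain ⟨l, hl, rfl⟩ := Finset.mem_image.1 hx
    obtain ⟨hl1, hl2⟩ := Finset.mem_filter.1 hl
    rw [← hl2]; exact hc l hl1
  have h2 : (Λ.filter (fun l => g l = a)).card ≤
      t * ((Λ.filter (fun l => g l = a)).image h).card := by
    refine Finset.card_le_mul_card_image _ _ ?_
    intro b _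
    rw [Finset.filter_filter]
    exact ht a b
  exact h2.trans (Nat.mul_le_mul_left _ h1)

lemma of_not_few {k : ℕ} (c : G → Fin k) (n : ℕ) (hF : ¬ Few c (k * n)) :
    ∃ (A : Finset G) (g : G), n ≤ A.card ∧ (∀ a ∈ A, ∀ b ∈ A, c a = c b) ∧
      (A : Set G) = (fun x => g * x⁻¹ * g) '' (A : Set G) := by
  classical
  unfold Few at hF
  push Not at hF
  obtain ⟨g, T, hT, hcard⟩ := hF
  obtain ⟨y, -, hy⟩ := Finset.exists_lt_card_fiber_of_mul_lt_card_of_maps_to
    (s := T) (t := (Finset.univ : Finset (Fin k))) (f := fun h => c (g * h)) (n := n)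
    (fun _ _ => Finset.mem_univ _) (by simpa using hcard)
  set T' := T.filter (fun h => c (g * h) = y) with hT'
  refine ⟨(T'.image (fun h => g * h)) ∪ (T'.image (fun h => g * h⁻¹)), g, ?_, ?_, ?_⟩
  · have : (T'.image (fun h => g * h)).card = T'.card :=
      Finset.card_image_of_injective _ (mul_right_injective g)
    have h2 := Finset.card_le_card (Finset.subset_union_left
      (s₁ := T'.image (fun h => g * h)) (s₂ := T'.image (fun h => g * h⁻¹)))
    omega
  · have key : ∀ a ∈ (T'.image (fun h => g * h)) ∪ (T'.image (fun h => g * h⁻¹)), c a = y := by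
      intro a ha
      rcases Finset.mem_union.1 ha with ha | ha
      · obtain ⟨h, hh, rfl⟩ := Finset.mem_image.1 ha
        exact (Finset.mem_filter.1 hh).2
      · obtain ⟨h, hh, rfl⟩ := Finset.mem_image.1 ha
        rw [← hT h (Finset.mem_filter.1 hh).1]
        exact (Finset.mem_filter.1 hh).2
    intro a ha b hb
    rw [key a ha, key b hb]
  · have key : ∀ a ∈ (T'.image (fun h => g * h)) ∪ (T'.image (fun h => g * h⁻¹)),
        g * a⁻¹ * g ∈ (T'.image (fun h => g * h)) ∪ (T'.image (fun h => g * h⁻¹)) := by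
      intro a ha
      rcases Finset.mem_union.1 ha with ha | ha
      · obtain ⟨h, hh, rfl⟩ := Finset.mem_image.1 ha
        exact Finset.mem_union_right _ (Finset.mem_image.2 ⟨h, hh, by group⟩)
      · obtain ⟨h, hh, rfl⟩ := Finset.mem_image.1 ha
        exact Finset.mem_union_left _ (Finset.mem_image.2 ⟨h, hh, by group⟩)
    ext a
    constructor
    · intro ha
      exact ⟨g * a⁻¹ * g, key a ha, by group⟩
    · rintro ⟨b, hb, rfl⟩
      exact key b hb

lemma Few.sub {k : ℕ} {c : G → Fin k} {K : ℕ} (hF : Few c K) (H : Subgroup G) :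
    Few (fun x : H => c x) K := by
  classical
  intro g T hT
  have := hF g (T.image (fun x : H => (x : G))) (by
    intro h hh
    obtain ⟨x, hx, rfl⟩ := Finset.mem_image.1 hh
    simpa using hT x hx)
  rwa [Finset.card_image_of_injective _ Subtype.val_injective] at this

lemma popular {ι : Type} {k : ℕ} (s : Finset ι) (f : ι → Fin k) (m : ℕ) (h : k * m < s.card) :
    ∃ y, m < (s.filter (fun x => f x = y)).card := by
  classical
  obtain ⟨y, -, hy⟩ := Finset.exists_lt_card_fiber_of_mul_lt_card_of_maps_to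
    (s := s) (t := (Finset.univ : Finset (Fin k))) (f := f) (n := m)
    (fun _ _ => Finset.mem_univ _) (by simpa using h)
  exact ⟨y, hy⟩

lemma torsion {k : ℕ} {c : G → Fin k} {K : ℕ} (hF : Few c K) (x : G) : IsOfFinOrder x := by
  classical
  by_contra hx
  have hinj : Function.Injective (fun n : ℤ => x ^ n) := injective_zpow_iff_not_isOfFinOrder.2 hx
  set m := 2 * K * (k + 1) + 2 * K with hm
  set N := k * m + 1 with hN
  obtain ⟨y, hy⟩ := popular (Finset.range N) (fun a => c (x ^ (2 * (a : ℤ)))) m (by simp [hN])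
  set S := (Finset.range N).filter (fun a : ℕ => c (x ^ (2 * (a : ℤ))) = y) with hS
  have h1 := core hF (S ×ˢ S) (fun p => x ^ ((p.1 : ℤ) + p.2)) (fun p => x ^ ((p.1 : ℤ) - p.2))
    (by
      intro p hp
      obtain ⟨h1, h2⟩ := Finset.mem_product.1 hp
      have e1 : x ^ ((p.1 : ℤ) + p.2) * x ^ ((p.1 : ℤ) - p.2) = x ^ (2 * (p.1 : ℤ)) := by
        rw [← zpow_add]; congr 1; ring
      have e2 : x ^ ((p.1 : ℤ) + p.2) * (x ^ ((p.1 : ℤ) - p.2))⁻¹ = x ^ (2 * (p.2 : ℤ)) := by
        rw [← zpow_neg, ← zpow_add]; congr 1; ring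
      rw [e1, e2, (Finset.mem_filter.1 h1).2, (Finset.mem_filter.1 h2).2])
    ((Finset.range (2 * N)).image (fun a : ℕ => x ^ (a : ℤ)))
    (by
      intro p hp
      obtain ⟨h1, h2⟩ := Finset.mem_product.1 hp
      have := Finset.mem_range.1 (Finset.mem_filter.1 h1).1
      have := Finset.mem_range.1 (Finset.mem_filter.1 h2).1
      exact Finset.mem_image.2 ⟨p.1 + p.2, Finset.mem_range.2 (by omega), by push_cast; rfl⟩)
    1
    (by
      intro a b
      rw [Finset.card_le_one]
      intro p hp q hq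
      obtain ⟨-, hp1, hp2⟩ := Finset.mem_filter.1 hp
      obtain ⟨-, hq1, hq2⟩ := Finset.mem_filter.1 hq
      have e1 := hinj (hp1.trans hq1.symm)
      have e2 := hinj (hp2.trans hq2.symm)
      ext <;> omega)
  have h2 : ((Finset.range (2 * N)).image (fun a : ℕ => x ^ (a : ℤ))).card ≤ 2 * N := by
    simpa using Finset.card_image_le (s := Finset.range (2 * N)) (f := fun a : ℕ => x ^ (a : ℤ))
  rw [Finset.card_product] at h1
  have h3 : (m + 1) * (m + 1) ≤ S.card * S.card := Nat.mul_le_mul hy hy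
  have h4 : (m + 1) * (m + 1) ≤ K * (2 * N) := by
    calc _ ≤ _ := h3
      _ ≤ _ := h1
      _ ≤ _ := by rw [one_mul]; exact Nat.mul_le_mul_left _ h2
  rw [hN] at h4
  have h5 : 2 * K * k + 2 * K ≤ m := by rw [hm]; nlinarith
  nlinarith

lemma exists_sqrt (hinv : ∀ h : G, h * h = 1 → h = 1) (x : G) (hx : IsOfFinOrder x) :
    ∃ j : ℕ, x ^ j * x ^ j = x := by
  have hpos := hx.orderOf_pos
  rcases Nat.even_or_odd' (orderOf x) with ⟨j, hj | hj⟩
  · exfalso
    have h1 : x ^ j * x ^ j = 1 := by rw [← pow_add, ← two_mul, ← hj, pow_orderOf_eq_one]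
    have h2 := orderOf_dvd_of_pow_eq_one (hinv _ h1)
    have := Nat.le_of_dvd (by omega) h2
    omega
  · refine ⟨j + 1, ?_⟩
    rw [← pow_add, show j + 1 + (j + 1) = (2 * j + 1) + 1 by ring, ← hj, pow_succ,
      pow_orderOf_eq_one, one_mul]

lemma bounded {k : ℕ} {c : G → Fin k} {K : ℕ} (hF : Few c K)
    (hinv : ∀ h : G, h * h = 1 → h = 1) (H : Subgroup G) (hH : (H : Set G).Finite) :
    (H : Set G).ncard ≤ k * (K * k + K) + k := by
  classical
  by_contra hlt
  push Not at hlt
  set F := hH.toFinset with hFdef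
  have hcard : F.card = (H : Set G).ncard := (Set.ncard_eq_toFinset_card _ hH).symm
  have hk : 0 < k := Fin.pos (c 1)
  set m := (F.card - 1) / k with hm
  have hm1 : k * m < F.card := by
    have := Nat.mul_div_le (F.card - 1) k
    rw [hm]; omega
  have hm2 : F.card ≤ k * (m + 1) := by
    have := Nat.lt_mul_div_succ (F.card - 1) hk
    rw [hm]; omega
  obtain ⟨y, hy⟩ := popular F c m hm1
  set S := F.filter (fun a => c a = y) with hS
  choose j hj using fun x : G => exists_sqrt hinv x (torsion hF x)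
  have h1 := core hF (S ×ˢ S) (fun p => p.1 * (p.1⁻¹ * p.2) ^ j (p.1⁻¹ * p.2))
    (fun p => ((p.1⁻¹ * p.2) ^ j (p.1⁻¹ * p.2))⁻¹)
    (by
      intro p hp
      obtain ⟨h1, h2⟩ := Finset.mem_product.1 hp
      simp only [inv_inv]
      rw [mul_inv_cancel_right, mul_assoc, hj, mul_inv_cancel_left,
        (Finset.mem_filter.1 h1).2, (Finset.mem_filter.1 h2).2])
    F
    (by
      intro p hp
      obtain ⟨h1, h2⟩ := Finset.mem_product.1 hp
      have a1 : p.1 ∈ H := by simpa [hFdef] using (Finset.mem_filter.1 h1).1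
      have a2 : p.2 ∈ H := by simpa [hFdef] using (Finset.mem_filter.1 h2).1
      simp only [hFdef, Set.Finite.mem_toFinset, SetLike.mem_coe]
      exact H.mul_mem a1 (H.pow_mem (H.mul_mem (H.inv_mem a1) a2) _))
    1
    (by
      intro a b
      rw [Finset.card_le_one]
      intro p hp q hq
      obtain ⟨-, hp1, hp2⟩ := Finset.mem_filter.1 hp
      obtain ⟨-, hq1, hq2⟩ := Finset.mem_filter.1 hq
      have e2 := inv_injective (hp2.trans hq2.symm)
      have e1 := hp1.trans hq1.symm
      rw [e2] at e1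
      have e3 : p.1 = q.1 := mul_right_cancel e1
      have e4 : p.1⁻¹ * p.2 = q.1⁻¹ * q.2 := by rw [← hj (p.1⁻¹ * p.2), e2, hj]
      rw [e3] at e4
      exact Prod.ext e3 (mul_left_cancel e4))
  rw [Finset.card_product, one_mul] at h1
  have h3 : (m + 1) * (m + 1) ≤ S.card * S.card := Nat.mul_le_mul hy hy
  have h4 : (m + 1) * (m + 1) ≤ (K * k) * (m + 1) := by
    calc _ ≤ _ := h3
      _ ≤ _ := h1
      _ ≤ K * (k * (m + 1)) := Nat.mul_le_mul_left _ hm2
      _ = _ := by ring
  have h5 : m + 1 ≤ K * k := Nat.le_of_mul_le_mul_right h4 (Nat.succ_pos m)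
  have h6 : k * (m + 1) ≤ k * (K * k + K) := Nat.mul_le_mul_left _ (by omega)
  omega

end Pool.Agent.H.MP_76c039_co
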