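import Pool.Agent.H.MP_76c039_co.A

set_option autoImplicit false

namespace Pool.Agent.H.MP_76c039_co

open Finset Pointwise

variable {G : Type} [Group G]

section growth
variable [DecidableEq G]

lemma ball_large (S : Finset G) (h1 : (1 : G) ∈ S) (hinvS : ∀ s ∈ S, s⁻¹ ∈ S)
    (hinf : ((Subgroup.closure (S : Set G) : Subgroup G) : Set G).Infinite) (N : ℕ) :
    ∃ L, N ≤ (S ^ L).card := by
  obtain ⟨T, hT, hTc⟩ := hinf.exists_subset_card_eq N
  have key : ∀ x ∈ Subgroup.closure (S : Set G), ∃ n : ℕ, x ∈ S ^ n := by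
    intro x hx
    induction hx using Subgroup.closure_induction with
    | mem x hx => exact ⟨1, by simpa using hx⟩
    | one => exact ⟨0, by simp⟩
    | mul x y _ _ hx hy =>
      obtain ⟨a, ha⟩ := hx
      obtain ⟨b, hb⟩ := hy
      exact ⟨a + b, by rw [pow_add]; exact Finset.mul_mem_mul ha hb⟩
    | inv x _ hx =>
      obtain ⟨a, ha⟩ := hx
      have hS : S⁻¹ = S := by
        ext s
        rw [Finset.mem_inv']
        exact ⟨fun h => by simpa using hinvS _ h, fun h => hinvS _ h⟩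
      refine ⟨a, ?_⟩
      rw [← hS, inv_pow]
      exact Finset.inv_mem_inv ha
  choose! f hf using key
  refine ⟨T.sup f, ?_⟩
  rw [← hTc]
  apply Finset.card_le_card
  intro x hx
  exact Finset.pow_subset_pow_right h1 (Finset.le_sup hx) (hf x (hT hx))

lemma lam (S : Finset G) (h1 : (1 : G) ∈ S) (K L : ℕ) :
    ∃ Λ : Finset (G × G), (∀ p ∈ Λ, ∀ m ∈ S, p.1 * m * p.2 ∈ S ^ (L + 1)) ∧
      K * ((S ^ L).card - (S ^ K).card) ≤ Λ.card := by
  classical
  let len : G → ℕ := fun x => if h : ∃ n : ℕ, x ∈ S ^ n then Nat.find h else 0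
  have hlen : ∀ x n, x ∈ S ^ n → len x ≤ n ∧ x ∈ S ^ (len x) := by
    intro x n hx
    have h : ∃ n : ℕ, x ∈ S ^ n := ⟨n, hx⟩
    simp only [len, dif_pos h]
    exact ⟨Nat.find_min' h hx, Nat.find_spec h⟩
  refine ⟨(Finset.range (L + 1)).biUnion (fun i => (S ^ (L - i)) ×ˢ (S ^ i)), ?_, ?_⟩
  · intro p hp m hm
    obtain ⟨i, hi, hp⟩ := Finset.mem_biUnion.1 hp
    obtain ⟨a, b⟩ := Finset.mem_product.1 hp
    have := Finset.mem_range.1 hi
    rw [show L + 1 = (L - i) + 1 + i by omega, pow_add, pow_succ]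
    exact Finset.mul_mem_mul (Finset.mul_mem_mul a hm) b
  · have hc : K * ((S ^ L).card - (S ^ K).card) ≤ ((Finset.range K) ×ˢ (S ^ L \ S ^ K)).card := by
      rw [Finset.card_product, Finset.card_range]
      exact Nat.mul_le_mul_left _ (Finset.le_card_sdiff _ _)
    refine hc.trans ?_
    apply Finset.card_le_card_of_surjOn (fun p : G × G => (len p.2, p.1 * p.2))
    rintro ⟨i, x⟩ hp
    obtain ⟨hi, hx⟩ := Finset.mem_product.1 (Finset.mem_coe.1 hp)
    have hi' : i < K := Finset.mem_range.1 hi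
    obtain ⟨hx1, hx2⟩ := Finset.mem_sdiff.1 hx
    simp only at hx1 hx2
    obtain ⟨l1, l2⟩ := hlen x L hx1
    have l3 : K < len x := by
      by_contra hle
      exact hx2 (Finset.pow_subset_pow_right h1 (by omega) l2)
    have l4 := l2
    rw [show len x = (len x - i) + i by omega, pow_add] at l4
    obtain ⟨w, hw, v, hv, hwv⟩ := Finset.mem_mul.1 l4
    obtain ⟨v1, v2⟩ := hlen v i hv
    have v3 : len v = i := by
      have : x ∈ S ^ ((len x - i) + len v) := by
        rw [pow_add, ← hwv]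
        refine Finset.mul_mem_mul ?_ v2
        rw [hwv]; exact hw
      have := (hlen x _ this).1
      omega
    refine ⟨(w, v), ?_, ?_⟩
    · refine Finset.mem_coe.2 (Finset.mem_biUnion.2 ⟨i, Finset.mem_range.2 (by omega), ?_⟩)
      exact Finset.mem_product.2 ⟨Finset.pow_subset_pow_right h1 (by omega) hw, hv⟩
    · simp [v3, hwv]

end growth

lemma fiber [DecidableEq G] (Λ : Finset (G × G)) (m d : G) (hd : {x : G | x * d = d * x}.Finite)
    (a e : G) :
    (Λ.filter (fun p => p.1 * m * p.2 = a ∧ p.2⁻¹ * d⁻¹ * p.2 = e)).card ≤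
      {x : G | x * d = d * x}.ncard := by
  rcases Finset.eq_empty_or_nonempty
    (Λ.filter (fun p => p.1 * m * p.2 = a ∧ p.2⁻¹ * d⁻¹ * p.2 = e)) with h | ⟨p0, h0⟩
  · rw [h]; simp
  obtain ⟨-, h03, h04⟩ := Finset.mem_filter.1 h0
  rw [Set.ncard_eq_toFinset_card _ hd]
  apply Finset.card_le_card_of_injOn (fun p => p.2 * p0.2⁻¹)
  · intro p hp
    obtain ⟨-, g3, g4⟩ := Finset.mem_filter.1 (Finset.mem_coe.1 hp)
    have := g4.trans h04.symm
    simp only [Set.Finite.coe_toFinset, Set.mem_ofPred_eq]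
    have e : p.2 * p0.2⁻¹ * d = p.2 * (p0.2⁻¹ * d⁻¹ * p0.2)⁻¹ * p0.2⁻¹ := by group
    rw [e, ← this]; group
  · intro p hp p' hp' hpp
    obtain ⟨-, g3, g4⟩ := Finset.mem_filter.1 (Finset.mem_coe.1 hp)
    obtain ⟨-, g3', g4'⟩ := Finset.mem_filter.1 (Finset.mem_coe.1 hp')
    have e2 : p.2 = p'.2 := mul_right_cancel hpp
    rw [← g3, e2] at g3'
    exact Prod.ext (mul_right_cancel (mul_right_cancel g3')).symm e2

lemma count [DecidableEq G] {k : ℕ} {c : G → Fin k} {K : ℕ} (hF : Few c K)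
    (b : Fin (k + 1) → G) (d : Fin (k + 1) → Fin (k + 1) → G)
    (hd1 : ∀ s t, d s t * d s t = (b s)⁻¹ * b t)
    (hd2 : ∀ s t, s ≠ t → {x : G | x * d s t = d s t * x}.Finite) (t0 : ℕ)
    (ht0 : ∀ s t, s ≠ t → {x : G | x * d s t = d s t * x}.ncard ≤ t0)
    (Λ : Finset (G × G)) (Y : Finset G)
    (hY : ∀ p ∈ Λ, ∀ s t, p.1 * (b s * d s t) * p.2 ∈ Y) :
    Λ.card ≤ (k + 1) * (k + 1) * t0 * K * Y.card := by
  have hp : ∀ p : G × G, ∃ q : Fin (k + 1) × Fin (k + 1), q.1 ≠ q.2 ∧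
      c (p.1 * b q.1 * p.2) = c (p.1 * b q.2 * p.2) := by
    intro p
    obtain ⟨x, y, hxy, h⟩ := Fintype.exists_ne_map_eq_of_card_lt
      (fun s : Fin (k + 1) => c (p.1 * b s * p.2)) (by simp)
    exact ⟨(x, y), hxy, h⟩
  choose q hq1 hq2 using hp
  refine core hF Λ (fun p => p.1 * (b (q p).1 * d (q p).1 (q p).2) * p.2)
    (fun p => p.2⁻¹ * (d (q p).1 (q p).2)⁻¹ * p.2) ?_ Y (fun p hp => hY p hp _ _)
    ((k + 1) * (k + 1) * t0) ?_
  · intro p _
    have e1 : p.1 * (b (q p).1 * d (q p).1 (q p).2) * p.2 *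
        (p.2⁻¹ * (d (q p).1 (q p).2)⁻¹ * p.2) = p.1 * b (q p).1 * p.2 := by group
    have e2 : p.1 * (b (q p).1 * d (q p).1 (q p).2) * p.2 *
        (p.2⁻¹ * (d (q p).1 (q p).2)⁻¹ * p.2)⁻¹ =
        p.1 * b (q p).1 * (d (q p).1 (q p).2 * d (q p).1 (q p).2) * p.2 := by group
    rw [e1, e2, hd1, hq2]
    congr 1
    group
  · intro a e
    have := Finset.card_le_mul_card_image_of_maps_to
      (s := Λ.filter (fun p => p.1 * (b (q p).1 * d (q p).1 (q p).2) * p.2 = a ∧
        p.2⁻¹ * (d (q p).1 (q p).2)⁻¹ * p.2 = e))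
      (t := (Finset.univ : Finset (Fin (k + 1) × Fin (k + 1)))) (f := q)
      (fun _ _ => Finset.mem_univ _) t0 ?_
    · simpa [mul_comm] using this
    intro r _
    by_cases hr : r.1 = r.2
    · rw [Finset.filter_eq_empty_iff.2]
      · simp
      · intro p _ h
        exact hq1 p (h ▸ hr)
    refine le_trans ?_ ((fiber Λ (b r.1 * d r.1 r.2) _ (hd2 r.1 r.2 hr) a e).trans (ht0 r.1 r.2 hr))
    apply Finset.card_le_card
    intro p hp
    obtain ⟨g1, g2⟩ := Finset.mem_filter.1 hp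
    obtain ⟨g0, g3, g4⟩ := Finset.mem_filter.1 g1
    rw [g2] at g3 g4
    exact Finset.mem_filter.2 ⟨g0, g3, g4⟩

lemma arith (C x y l s : ℕ) (hx : 0 < x) (h1 : 2 * x ≤ y) (h2 : (2 * C * s + 1) * (y - x) ≤ l)
    (h3 : l ≤ C * (y * s)) : False := by
  obtain ⟨u, rfl⟩ := Nat.exists_eq_add_of_le (show x ≤ y by omega)
  rw [Nat.add_sub_cancel_left] at h2
  have h6 : x ≤ u := by omega
  have h7 : C * s * x ≤ C * s * u := Nat.mul_le_mul_left _ h6
  nlinarith

lemma main_case [Infinite G] {k : ℕ} {c : G → Fin k} {K : ℕ} (hF : Few c K)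
    (hinv : ∀ h : G, h * h = 1 → h = 1) (Z : Subgroup G) (hZ : (Z : Set G).Finite)
    (hcent : ∀ d : G, d ∉ Z → {x : G | x * d = d * x}.Finite) : False := by
  classical
  have hb : ∀ n : ℕ, ∃ b : Fin n → G, ∀ i j, i ≠ j → (b i)⁻¹ * b j ∉ Z := by
    have : Finite Z := hZ.to_subtype
    have : Infinite (G ⧸ Z) := by
      by_contra h
      have : Finite (G ⧸ Z) := not_infinite_iff_finite.1 h
      have : Finite G := Finite.of_equiv _ (Subgroup.groupEquivQuotientProdSubgroup (s := Z)).symm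
      exact not_finite G
    intro n
    refine ⟨fun i => Quotient.out ((Infinite.natEmbedding (G ⧸ Z)) i), ?_⟩
    intro i j hij hm
    have := QuotientGroup.eq.2 hm
    simp only [QuotientGroup.out_eq'] at this
    exact hij (Fin.ext ((Infinite.natEmbedding (G ⧸ Z)).injective this))
  obtain ⟨b, hb⟩ := hb (k + 1)
  choose j hj using fun x : G => exists_sqrt hinv x (torsion hF x)
  obtain ⟨d, hd1⟩ : ∃ d : Fin (k + 1) → Fin (k + 1) → G,
      ∀ s t, d s t * d s t = (b s)⁻¹ * b t := ⟨_, fun s t => hj _⟩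
  have hd2 : ∀ s t, s ≠ t → {x : G | x * d s t = d s t * x}.Finite := by
    intro s t hst
    apply hcent
    intro hm
    exact hb s t hst (hd1 s t ▸ Z.mul_mem hm hm)
  obtain ⟨t0, ht0⟩ : ∃ t0 : ℕ, ∀ s t, s ≠ t → {x : G | x * d s t = d s t * x}.ncard ≤ t0 :=
    ⟨(Finset.univ : Finset (Fin (k + 1) × Fin (k + 1))).sup
      (fun p => {x : G | x * d p.1 p.2 = d p.1 p.2 * x}.ncard),
      fun s t _ => Finset.le_sup (f := fun p : Fin (k + 1) × Fin (k + 1) =>
        {x : G | x * d p.1 p.2 = d p.1 p.2 * x}.ncard) (Finset.mem_univ (s, t))⟩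
  obtain ⟨T, hT⟩ := Infinite.exists_subset_card_eq G (k * (K * k + K) + k + 1)
  obtain ⟨S0, h10, hT0, hm0⟩ : ∃ S0 : Finset G, (1 : G) ∈ S0 ∧ T ⊆ S0 ∧ ∀ s t, b s * d s t ∈ S0 :=
    ⟨insert 1 (T ∪ (Finset.univ : Finset (Fin (k + 1) × Fin (k + 1))).image
      (fun p => b p.1 * d p.1 p.2)), Finset.mem_insert_self _ _,
      fun x hx => Finset.mem_insert_of_mem (Finset.mem_union_left _ hx),
      fun s t => Finset.mem_insert_of_mem (Finset.mem_union_right _
        (Finset.mem_image.2 ⟨(s, t), Finset.mem_univ _, rfl⟩))⟩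
  obtain ⟨S, hS0, hinvS⟩ : ∃ S : Finset G, S0 ⊆ S ∧ ∀ s ∈ S, s⁻¹ ∈ S := by
    refine ⟨S0 ∪ S0⁻¹, Finset.subset_union_left, ?_⟩
    intro s hs
    rcases Finset.mem_union.1 hs with hs | hs
    · exact Finset.mem_union_right _ (Finset.inv_mem_inv hs)
    · exact Finset.mem_union_left _ (Finset.mem_inv'.1 hs)
  have h1 : (1 : G) ∈ S := hS0 h10
  have hinf : ((Subgroup.closure (S : Set G) : Subgroup G) : Set G).Infinite := by
    intro hfin
    have h2 := bounded hF hinv _ hfin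
    have h3 : (T : Set G) ⊆ (Subgroup.closure (S : Set G) : Subgroup G) := by
      intro x hx
      exact Subgroup.subset_closure (Finset.mem_coe.2 (hS0 (hT0 hx)))
    have h4 := Set.ncard_le_ncard h3 hfin
    rw [Set.ncard_coe_finset] at h4
    omega
  obtain ⟨K', hK'⟩ : ∃ K', K' = 2 * ((k + 1) * (k + 1) * t0 * K) * S.card + 1 := ⟨_, rfl⟩
  obtain ⟨L, hL⟩ := ball_large S h1 hinvS hinf (2 * (S ^ K').card)
  obtain ⟨Λ, hΛ1, hΛ2⟩ := lam S h1 K' L
  have hcore := count hF b d hd1 hd2 t0 ht0 Λ (S ^ (L + 1))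
    (fun p hp s t => hΛ1 p hp _ (hS0 (hm0 s t)))
  have hb1 : (S ^ (L + 1)).card ≤ (S ^ L).card * S.card := by
    rw [pow_succ]; exact Finset.card_mul_le
  have hpos : 0 < (S ^ K').card := Finset.card_pos.2 ⟨1, Finset.one_mem_pow h1⟩
  refine arith ((k + 1) * (k + 1) * t0 * K) _ _ Λ.card S.card hpos hL ?_ ?_
  · rw [← hK']; exact hΛ2
  · exact hcore.trans (Nat.mul_le_mul_left _ hb1)

lemma not_few [Infinite G] {k : ℕ} {c : G → Fin k} {K : ℕ}
    (hinv : ∀ h : G, h * h = 1 → h = 1) : ¬ Few c K := by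
  classical
  intro hF
  let P : ℕ → Prop := fun n => ∃ Z : Subgroup G, (Z : Set G).Finite ∧ (Z : Set G).ncard = n ∧
    (Subgroup.centralizer (Z : Set G) : Set G).Infinite
  have hP1 : P 1 := by
    refine ⟨⊥, by simp, by simp, ?_⟩
    have : Subgroup.centralizer (((⊥ : Subgroup G)) : Set G) = ⊤ := by
      rw [eq_top_iff]; intro x _ y hy
      have : y = 1 := by simpa using hy
      simp [this]
    rw [this]; simpa using Set.infinite_univ
  set B := k * (K * k + K) + k with hB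
  have hk : 0 < k := Fin.pos (c 1)
  obtain ⟨Z, hZ1, hZ2, hZ3⟩ : P (Nat.findGreatest P B) :=
    Nat.findGreatest_spec (m := 1) (by omega) hP1
  set H := Subgroup.centralizer (Z : Set G) with hH
  have : Infinite H := hZ3.to_subtype
  refine main_case (G := H) (hF.sub H) (fun h hh => Subtype.ext (hinv _ (congrArg Subtype.val hh)))
    (Z.subgroupOf H) ?_ ?_
  · exact (hZ1.preimage (f := fun x : H => (x : G)) Subtype.val_injective.injOn).subset
      (fun x hx => hx)
  · intro d hd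
    by_contra hinf
    have hdZ : (d : G) ∉ Z := hd
    have hcomm : ∀ z ∈ Z, z * (d : G) = d * z := d.2
    have hcomm' : ∀ z ∈ Z, ∀ n : ℤ, z * (d : G) ^ n = (d : G) ^ n * z := fun z hz n =>
      ((Commute.zpow_right (hcomm z hz : Commute z (d : G)) n))
    let Z' : Subgroup G :=
      { carrier := {x | ∃ z ∈ Z, ∃ n : ℤ, x = z * (d : G) ^ n}
        one_mem' := ⟨1, Z.one_mem, 0, by simp⟩
        mul_mem' := by
          rintro _ _ ⟨z, hz, n, rfl⟩ ⟨z', hz', n', rfl⟩
          refine ⟨z * z', Z.mul_mem hz hz', n + n', ?_⟩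
          rw [zpow_add, mul_assoc, ← mul_assoc ((d : G) ^ n), ← hcomm' z' hz' n]
          group
        inv_mem' := by
          rintro _ ⟨z, hz, n, rfl⟩
          refine ⟨z⁻¹, Z.inv_mem hz, -n, ?_⟩
          rw [hcomm' _ (Z.inv_mem hz)]
          group }
    have hfin : (Z' : Set G).Finite := by
      have h1 : ((Subgroup.zpowers (d : G) : Subgroup G) : Set G).Finite :=
        finite_zpowers.2 (torsion hF _)
      refine (hZ1.mul h1).subset ?_
      rintro _ ⟨z, hz, n, rfl⟩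
      exact Set.mul_mem_mul hz ⟨n, rfl⟩
    have hsub : (Z : Set G) ⊂ (Z' : Set G) := by
      refine ⟨fun z hz => ⟨z, hz, 0, by simp⟩, fun h => hdZ (h ⟨1, Z.one_mem, 1, by simp⟩)⟩
    have hlt := Set.ncard_lt_ncard hsub hfin
    have hle : (Z' : Set G).ncard ≤ B := bounded hF hinv Z' hfin
    have hPZ : P (Z' : Set G).ncard := by
      refine ⟨Z', hfin, rfl, ?_⟩
      have h2 : ((fun x : H => (x : G)) '' {x : H | x * d = d * x}).Infinite :=
        Set.Infinite.image Subtype.val_injective.injOn hinf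
      refine h2.mono ?_
      rintro _ ⟨x, hx, rfl⟩ _ ⟨z, hz, n, rfl⟩
      have a1 : z * (x : G) = x * z := x.2 z hz
      have a2 : Commute (x : G) (d : G) := congrArg Subtype.val hx
      have a3 := (a2.zpow_right n).eq
      simp only
      rw [mul_assoc, ← a3, ← mul_assoc, a1, mul_assoc]
    have := Nat.le_findGreatest hle hPZ
    omega

end Pool.Agent.H.MP_76c039_co
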